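import Pool.Agent.Helper63.ML.Defs2

/-!
# MQ-PAT (helper97): pattern and transitivity for the threshold `23/25`
-/

set_option autoImplicit false
namespace Pool.Agent.Helper63.ML
open Complex Metric MeasureTheory
open scoped ComplexConjugate

namespace PC

lemma s3 : Real.sqrt 3 * Real.sqrt 3 = 3 := Real.mul_self_sqrt (by norm_num)

lemma re1 (z : ℂ) : (om * z).re = -(z.re + Real.sqrt 3 * z.im) / 2 := by
  simp [om, Complex.mul_re]; ring

lemma im1 (z : ℂ) : (om * z).im = (-z.im + Real.sqrt 3 * z.re) / 2 := by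
  simp [om, Complex.mul_im]; ring

lemma re2 (z : ℂ) : (conj om * z).re = (-z.re + Real.sqrt 3 * z.im) / 2 := by
  simp [om, Complex.mul_re]; ring

lemma im2 (z : ℂ) : (conj om * z).im = (-z.im - Real.sqrt 3 * z.re) / 2 := by
  simp [om, Complex.mul_im]; ring

lemma om_conj_om (z : ℂ) : om * (conj om * z) = z := by
  apply Complex.ext
  · rw [re1, re2, im2]; linear_combination (z.re / 4) * s3
  · rw [im1, re2, im2]; linear_combination (z.im / 4) * s3

lemma conj_om_om (z : ℂ) : conj om * (om * z) = z := by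
  apply Complex.ext
  · rw [re2, re1, im1]; linear_combination (z.re / 4) * s3
  · rw [im2, re1, im1]; linear_combination (z.im / 4) * s3

lemma om_om (z : ℂ) : om * (om * z) = conj om * z := by
  apply Complex.ext
  · rw [re1, re2, re1, im1]; linear_combination (-z.re / 4) * s3
  · rw [im1, im2, re1, im1]; linear_combination (-z.im / 4) * s3

lemma conj_om_conj_om (z : ℂ) : conj om * (conj om * z) = om * z := by
  apply Complex.ext
  · rw [re2, re1, re2, im2]; linear_combination (-z.re / 4) * s3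
  · rw [im2, im1, re2, im2]; linear_combination (-z.im / 4) * s3

/-- normalised coordinates of a canonical number -/
structure Reg (x t : ℝ) : Prop where
  lo : 79 / 100 ≤ x
  hi : x ≤ 1
  t1 : -(46 / 25 - x) ≤ t
  t2 : t ≤ 46 / 25 - x
  n1 : 1 ≤ x ^ 2 + t ^ 2 / 3

lemma nsq (z : ℂ) : normSq z = z.re ^ 2 + (Real.sqrt 3 * z.im) ^ 2 / 3 := by
  rw [normSq_apply, mul_pow, Real.sq_sqrt (by norm_num)]; ring

lemma reg_of {z : ℂ} (hc : Can z) (h1 : z.re ≤ 1) (h2 : -(23 / 25) < (om * z).re)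
    (h3 : -(23 / 25) < (conj om * z).re) (hn : 1 ≤ normSq z) :
    Reg z.re (Real.sqrt 3 * z.im) := by
  obtain ⟨c1, c2⟩ := hc
  rw [re1] at c1 h2
  rw [re2] at c2 h3
  rw [nsq] at hn
  set x := z.re
  set t := Real.sqrt 3 * z.im
  have a1 : t < 3 * x := by linarith
  have a2 : -(3 * x) < t := by linarith
  have a3 : t < 46 / 25 - x := by linarith
  have a4 : -(46 / 25 - x) < t := by linarith
  have b1 : t ^ 2 < 9 * x ^ 2 := by
    have := mul_pos (show 0 < 3 * x - t by linarith) (show 0 < 3 * x + t by linarith)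
    linarith
  have b2 : t ^ 2 < (46 / 25 - x) ^ 2 := by
    have := mul_pos (show 0 < 46 / 25 - x - t by linarith) (show 0 < 46 / 25 - x + t by linarith)
    linarith
  have hx0 : 0 < x := by linarith
  have hx : 1 / 2 < x := by
    by_contra hcon
    have := mul_nonneg (show 0 ≤ 1 / 2 - x by linarith) (show 0 ≤ 1 / 2 + x by linarith)
    linarith
  refine ⟨?_, h1, a4.le, a3.le, hn⟩
  by_contra hlt
  have hlt : x < 79 / 100 := not_le.1 hlt
  have := mul_pos (sub_pos.2 hx) (sub_pos.2 hlt)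
  linarith

lemma reg_neg {x t : ℝ} (h : Reg x t) : Reg x (-t) :=
  ⟨h.lo, h.hi, by have := h.t2; linarith, by have := h.t1; linarith, by
    have := h.n1; rw [neg_sq]; exact this⟩

lemma reg_R {x t : ℝ} (h : Reg x t) : x ^ 2 + t ^ 2 / 3 ≤ 31 / 25 := by
  obtain ⟨h1, h2, h3, h4, -⟩ := h
  have b2 : t ^ 2 ≤ (46 / 25 - x) ^ 2 := by
    have := mul_nonneg (show 0 ≤ 46 / 25 - x - t by linarith) (show 0 ≤ 46 / 25 - x + t by linarith)
    linarith
  have := mul_nonneg (sub_nonneg.2 h1) (sub_nonneg.2 h2)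
  linarith

lemma core {x1 t1 x2 t2 x3 t3 : ℝ} (h1 : Reg x1 t1) (h2 : Reg x2 t2) (h3 : Reg x3 t3) :
    -(x1 * x2 * x3 - (x1 * t2 * t3 + x2 * t1 * t3 + x3 * t1 * t2) / 3)
      - (x1 * x2 * t3 + x1 * x3 * t2 + x2 * x3 * t1 - t1 * t2 * t3 / 3)
    < (x1 ^ 2 + t1 ^ 2 / 3) + (x2 ^ 2 + t2 ^ 2 / 3) + (x3 ^ 2 + t3 ^ 2 / 3) - 1 := by
  have r2 := reg_R h2
  have r3 := reg_R h3
  have n2 := h2.n1
  have n3 := h3.n1
  set R2 := x2 ^ 2 + t2 ^ 2 / 3 with hR2
  set R3 := x3 ^ 2 + t3 ^ 2 / 3 with hR3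
  set l := x1 - t1 with hl
  set m := x1 + t1 / 3 with hm
  set q := x2 * x3 - t2 * t3 / 3 - x2 * t3 - x3 * t2 with hq
  set p := x2 * x3 - t2 * t3 / 3 + (x2 * t3 + x3 * t2) / 3 with hp
  have hid : (x1 ^ 2 + t1 ^ 2 / 3) + R2 + R3 - 1
      + (x1 * x2 * x3 - (x1 * t2 * t3 + x2 * t1 * t3 + x3 * t1 * t2) / 3)
      + (x1 * x2 * t3 + x1 * x3 * t2 + x2 * x3 * t1 - t1 * t2 * t3 / 3)
      = (l - q) ^ 2 / 4 + 3 * (m + p) ^ 2 / 4 - (R2 - 1) * (R3 - 1) := by
    rw [hR2, hR3, hl, hm, hq, hp]; ring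
  have hm1 : 44 / 100 ≤ m := by
    rw [hm]; have := h1.lo; have := h1.t1; linarith
  suffices hs : (R2 - 1) * (R3 - 1) < (l - q) ^ 2 / 4 + 3 * (m + p) ^ 2 / 4 by linarith
  by_cases hp0 : 0 ≤ p
  · have e1 : (R2 - 1) * (R3 - 1) ≤ (6 / 25) * (6 / 25) := by
      apply mul_le_mul <;> linarith
    have e2 : (44 / 100) ^ 2 ≤ (m + p) ^ 2 := pow_le_pow_left₀ (by norm_num) (by linarith) 2
    have e3 := sq_nonneg (l - q)
    linarith
  · have hp0 : p < 0 := not_le.1 hp0
    -- bounds
    have b1 : t2 ≤ 105 / 100 := by have := h2.t2; have := h2.lo; linarith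
    have b2 : -(105 / 100) ≤ t2 := by have := h2.t1; have := h2.lo; linarith
    have b3 : t3 ≤ 105 / 100 := by have := h3.t2; have := h3.lo; linarith
    have b4 : -(105 / 100) ≤ t3 := by have := h3.t1; have := h3.lo; linarith
    have c1 : x3 - t3 ≤ 46 / 25 := by have := h3.t1; linarith
    have c2 : -(46 / 25) ≤ x3 - t3 := by have := h3.lo; linarith
    have c3 : 44 / 100 ≤ x3 + t3 / 3 := by have := h3.lo; have := h3.t1; linarith
    have hpeq : p = x2 * (x3 + t3 / 3) + t2 * (x3 - t3) / 3 := by rw [hp]; ring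
    have d1 : (79 / 100) * (44 / 100) ≤ x2 * (x3 + t3 / 3) := by
      have := h2.lo
      apply mul_le_mul <;> linarith
    have d2 : |t2 * (x3 - t3)| ≤ (105 / 100) * (46 / 25) := by
      rw [abs_mul]
      apply mul_le_mul
      · rw [abs_le]; exact ⟨b2, b1⟩
      · rw [abs_le]; exact ⟨c2, c1⟩
      · exact abs_nonneg _
      · norm_num
    have d3 := (abs_le.1 d2).1
    have hp1 : -(3 / 10) ≤ p := by rw [hpeq]; linarith
    have hp2 : p ^ 2 ≤ 9 / 100 := by
      have := mul_nonneg (show 0 ≤ 3 / 10 + p by linarith) (show 0 ≤ 3 / 10 - p by linarith)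
      linarith
    have e1 : |t2 * t3| ≤ (105 / 100) * (105 / 100) := by
      rw [abs_mul]
      apply mul_le_mul
      · rw [abs_le]; exact ⟨b2, b1⟩
      · rw [abs_le]; exact ⟨b4, b3⟩
      · exact abs_nonneg _
      · norm_num
    have e2 := (abs_le.1 e1).2
    have e3 : (79 / 100) * (79 / 100) ≤ x2 * x3 := by
      have := h2.lo
      have := h3.lo
      apply mul_le_mul <;> linarith
    have hq0 : 0 < q := by
      have : q = 4 * (x2 * x3 - t2 * t3 / 3) - 3 * p := by rw [hq, hp]; ring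
      rw [this]
      linarith
    have hqp : (q / 2) ^ 2 = R2 * R3 - 3 * p ^ 2 / 4 := by
      rw [hq, hp, hR2, hR3]; ring
    have hRR : 1 ≤ R2 * R3 := by
      have := mul_nonneg (show 0 ≤ R2 - 1 by linarith) (show 0 ≤ R3 - 1 by linarith)
      linarith
    set ρ := Real.sqrt (R2 * R3) with hρ
    have hρ2 : ρ ^ 2 = R2 * R3 := Real.sq_sqrt (by linarith)
    have hρ1 : 1 ≤ ρ := by
      rw [hρ, Real.one_le_sqrt]; exact hRR
    have hq1 : ρ - 8 / 100 < q / 2 := by
      by_contra hcon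
      have hcon : q / 2 ≤ ρ - 8 / 100 := not_lt.1 hcon
      have : (q / 2) ^ 2 ≤ (ρ - 8 / 100) ^ 2 := by
        apply pow_le_pow_left₀ (by linarith) hcon
      linarith
    have hl1 : l / 2 ≤ 92 / 100 := by
      rw [hl]; have := h1.t1; linarith
    have f1 : ρ - 1 < q / 2 - l / 2 := by linarith
    have f2 : (ρ - 1) ^ 2 < (q / 2 - l / 2) ^ 2 := by
      apply pow_lt_pow_left₀ f1 (by linarith) (by norm_num)
    have f3 : 2 * ρ ≤ R2 + R3 := by
      apply abs_le_of_sq_le_sq' _ (by linarith) |>.2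
      rw [mul_pow, hρ2]
      linarith [sq_nonneg (R2 - R3)]
    have f4 : (R2 - 1) * (R3 - 1) ≤ (ρ - 1) ^ 2 := by
      have : (R2 - 1) * (R3 - 1) = ρ ^ 2 - (R2 + R3) + 1 := by rw [hρ2]; ring
      rw [this]
      linarith
    have f5 : (q / 2 - l / 2) ^ 2 = (l - q) ^ 2 / 4 := by ring
    linarith [sq_nonneg (m + p)]

/-- the core inequality for complex numbers -/
lemma coreC {z1 z2 z3 : ℂ} (h1 : Reg z1.re (Real.sqrt 3 * z1.im))
    (h2 : Reg z2.re (Real.sqrt 3 * z2.im)) (h3 : Reg z3.re (Real.sqrt 3 * z3.im)) :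
    2 * (om * (z1 * z2 * z3)).re < normSq z1 + normSq z2 + normSq z3 - 1 := by
  have h := core h1 h2 h3
  rw [nsq, nsq, nsq]
  refine lt_of_eq_of_lt ?_ h
  rw [re1]
  simp only [Complex.mul_re, Complex.mul_im]
  set s := Real.sqrt 3
  have hs : s * s = 3 := s3
  linear_combination ((z1.re * z2.im * z3.im + z2.re * z1.im * z3.im + z3.re * z1.im * z2.im) / 3
    + s * (z1.im * z2.im * z3.im) / 3) * (-hs)

lemma can_conj {z : ℂ} (h : Can z) : Can (conj z) := by
  obtain ⟨h1, h2⟩ := h
  rw [re1] at h1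
  rw [re2] at h2
  constructor
  · rw [re1]; simp only [conj_re, conj_im]; linarith
  · rw [re2]; simp only [conj_re, conj_im]; linarith

lemma reg_conj {z : ℂ} (h : Reg z.re (Real.sqrt 3 * z.im)) :
    Reg (conj z).re (Real.sqrt 3 * (conj z).im) := by
  have := reg_neg h
  simpa using this

end PC

open PC in
theorem patC_of {a : ℂ} (h1 : 1 ≤ normSq a) (h2 : -(23 / 25) < a.re)
    (h3 : -(23 / 25) < (om * a).re) (h4 : -(23 / 25) < (conj om * a).re) :
    PatC a := by
  unfold PatC Can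
  rw [om_om, conj_om_om, om_conj_om, conj_om_conj_om]
  rw [nsq] at h1
  rw [re1] at h3 ⊢
  rw [re2] at h4 ⊢
  set x := a.re
  set t := Real.sqrt 3 * a.im
  -- the three numbers are x, -(x+t)/2, (-x+t)/2
  rcases lt_trichotomy t 0 with ht | ht | ht
  · -- second larger than third
    rcases lt_trichotomy (-(x + t) / 2) x with h | h | h
    · left; constructor <;> linarith
    · exfalso
      have : t = -(3 * x) := by linarith
      rw [this] at h1 h4
      nlinarith
    · right; left; constructor <;> linarith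
  · rcases lt_trichotomy (-(x + t) / 2) x with h | h | h
    · left; constructor <;> linarith
    · exfalso
      have hx : x = 0 := by linarith
      rw [hx, ht] at h1
      norm_num at h1
    · exfalso
      rw [ht] at h1
      have : x < 0 := by linarith
      nlinarith
  · rcases lt_trichotomy ((-x + t) / 2) x with h | h | h
    · left; constructor <;> linarith
    · exfalso
      have : t = 3 * x := by linarith
      rw [this] at h1 h3
      nlinarith
    · right; right; constructor <;> linarith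

open PC in
theorem transC_of {a b c : ℂ} (ha : Can a) (hb : Can b) (hc : PatC c)
    (ha1 : a.re ≤ 1) (hb1 : b.re ≤ 1) (hc1 : c.re ≤ 1) (hc2 : (om * c).re ≤ 1)
    (hc3 : (conj om * c).re ≤ 1)
    (ha2 : -(23 / 25) < (om * a).re) (ha3 : -(23 / 25) < (conj om * a).re)
    (hb2 : -(23 / 25) < (om * b).re) (hb3 : -(23 / 25) < (conj om * b).re)
    (hc4 : -(23 / 25) < c.re) (hc5 : -(23 / 25) < (om * c).re) (hc6 : -(23 / 25) < (conj om * c).re)
    (na : 1 ≤ normSq a) (nb : 1 ≤ normSq b) (nc : 1 ≤ normSq c)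
    (hg : 1 + 2 * (a * b * conj c).re = normSq a + normSq b + normSq c) : Can c := by
  have ra := reg_of ha ha1 ha2 ha3 na
  have rb := reg_of hb hb1 hb2 hb3 nb
  rcases hc with h | h | h
  · exact h
  · exfalso
    set d := om * c with hd
    have hcd : c = conj om * d := by rw [hd, conj_om_om]
    have nd : normSq d = normSq c := by
      rw [nsq, nsq c, hd, re1, im1]
      have hs := s3
      set s := Real.sqrt 3
      linear_combination (((-c.im + s * c.re) / 2) ^ 2 / 3 + c.re ^ 2 / 4 - c.im ^ 2 / 3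
        + c.im ^ 2 / 4) * hs
    have rd := reg_of h hc2 (by rw [hd, om_om]; exact hc6) (by rw [← hcd]; exact hc4)
      (by rw [nd]; exact nc)
    have key := coreC ra rb (reg_conj rd)
    have e1 : a * b * conj c = om * (a * b * conj d) := by
      rw [hcd, map_mul, conj_conj]; ring
    rw [e1] at hg
    rw [normSq_conj, nd] at key
    linarith
  · exfalso
    set d := conj om * c with hd
    have hcd : c = om * d := by rw [hd, om_conj_om]
    have nd : normSq d = normSq c := by
      rw [nsq, nsq c, hd, re2, im2]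
      have hs := s3
      set s := Real.sqrt 3
      linear_combination (((-c.im - s * c.re) / 2) ^ 2 / 3 + c.re ^ 2 / 4 - c.im ^ 2 / 3
        + c.im ^ 2 / 4) * hs
    have rd := reg_of h hc3 (by rw [← hcd]; exact hc4) (by rw [hd, conj_om_conj_om]; exact hc5)
      (by rw [nd]; exact nc)
    have key := coreC (reg_conj ra) (reg_conj rb) rd
    have e1 : (a * b * conj c).re = (om * (conj a * conj b * d)).re := by
      have : a * b * conj c = conj (om * (conj a * conj b * d)) := by
        rw [hcd]; simp only [map_mul, conj_conj]; ring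
      rw [this, conj_re]
    rw [e1] at hg
    rw [normSq_conj, normSq_conj, nd] at key
    linarith

end Pool.Agent.Helper63.ML
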