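import Pool.Agent.Helper13.ML.DefsC
import Pool.Agent.Helper97.LN.CLS

/-!
# Project ML, block CLL: the number of classes with the same labels is bounded
-/

set_option autoImplicit false
set_option maxHeartbeats 1000000

namespace Pool.Agent.ML

open NumberField IsDedekindDomain WithZero
open Pool.Agent.HG (Pr nm)
open Pool.Agent.LN (val_ne sel_n)

theorem lab_iff97 {k : Type} [Field k] [NumberField k] {n : ℕ} (hn : 0 < n) (v : Pr k) (e : ℕ)
    {c : k} (hc : c ≠ 0) : Lab n v e c ↔ (n : ℤ) ∣ log (v.valuation k c) + e := by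
  constructor
  · rintro ⟨d, hd⟩
    have hd0 : v.valuation k d ≠ 0 := by
      intro h0
      rw [h0, zero_pow hn.ne', mul_zero] at hd
      exact val_ne v hc hd
    rw [hd, log_mul exp_ne_zero (pow_ne_zero _ hd0), log_exp, log_pow]
    refine ⟨log (v.valuation k d), ?_⟩
    simp only [nsmul_eq_mul]
    ring
  · rintro ⟨m, hm⟩
    obtain ⟨π, hπ⟩ := v.valuation_exists_uniformizer k
    refine ⟨π ^ (-m), ?_⟩
    have h1 : v.valuation k c = exp (log (v.valuation k c)) := (exp_log (val_ne v hc)).symm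
    have h2 : log (v.valuation k c) = n * m - e := by linarith
    rw [h1, h2, map_zpow₀, hπ, ← exp_zsmul, ← exp_nsmul, ← exp_add, exp_inj]
    simp only [smul_eq_mul, nsmul_eq_mul]
    ring

theorem cll : StmtCLL := by
  classical
  intro k _ _ n hn
  have hn0 : 0 < n := by omega
  obtain ⟨F, -, hF⟩ := sel_n k hn0
  refine ⟨F.card, fun T S hT hS => ?_⟩
  refine Finset.card_le_mul_card_image T F.card fun A hA => ?_
  obtain ⟨c₀, hc₀, rfl⟩ := Finset.mem_image.1 hA
  -- the elements of `T` with the labels of `c₀`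
  have hlab : ∀ c ∈ T, ∀ c' ∈ T, S c = S c' → ∀ v : Pr k,
      (n : ℤ) ∣ log (v.valuation k c) - log (v.valuation k c') := by
    intro c hc c' hc' heq v
    -- the label of `c`
    have key : ∀ c ∈ T, ∀ c' ∈ T, S c = S c' → ¬ (n : ℤ) ∣ log (v.valuation k c) →
        (n : ℤ) ∣ log (v.valuation k c) - log (v.valuation k c') := by
      intro c hc c' hc' heq hnd
      obtain ⟨e, he⟩ : ∃ e : ℕ, (e : ℤ) = (-log (v.valuation k c)) % n :=
        ⟨((-log (v.valuation k c)) % n).toNat, Int.toNat_of_nonneg (Int.emod_nonneg _ (by omega))⟩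
      have he1 : e < n := by
        have h1 := Int.emod_lt_of_pos (-log (v.valuation k c)) (by omega : (0 : ℤ) < n)
        omega
      have he2 : (n : ℤ) ∣ log (v.valuation k c) + e := by
        rw [he]
        have h1 := Int.emod_add_mul_ediv (-log (v.valuation k c)) n
        exact ⟨-(-log (v.valuation k c) / n), by linarith⟩
      have he0 : e ≠ 0 := by
        rintro rfl
        apply hnd
        simpa using he2
      have h1 : ((v, ⟨e, he1⟩) : Pr k × Fin n) ∈ S c :=
        ((hS c hc).2 v ⟨e, he1⟩).2 ⟨he0, (lab_iff97 hn0 v e (hS c hc).1).2 he2⟩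
      rw [heq] at h1
      have h2 := (lab_iff97 hn0 v e (hS c' hc').1).1 (((hS c' hc').2 v ⟨e, he1⟩).1 h1).2
      have h3 : log (v.valuation k c) - log (v.valuation k c') =
          (log (v.valuation k c) + e) - (log (v.valuation k c') + e) := by ring
      rw [h3]
      exact dvd_sub he2 h2
    by_cases h1 : (n : ℤ) ∣ log (v.valuation k c)
    · by_cases h2 : (n : ℤ) ∣ log (v.valuation k c')
      · exact dvd_sub h1 h2
      · have h3 := key c' hc' c hc heq.symm h2
        rw [← neg_sub]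
        exact (dvd_neg).2 h3
    · exact key c hc c' hc' heq h1
  have hrep : ∀ c : {c // c ∈ T ∧ S c = S c₀}, ∃ e ∈ F, ∃ d : k, (c : k) / c₀ = e * d ^ n := by
    intro c
    have hc0 : (c : k) ≠ 0 := (hS c c.2.1).1
    have hc00 : c₀ ≠ 0 := (hS c₀ hc₀).1
    refine hF _ (div_ne_zero hc0 hc00) fun v => ?_
    rw [map_div₀, log_div (val_ne v hc0) (val_ne v hc00)]
    exact hlab c c.2.1 c₀ hc₀ c.2.2 v
  choose e heF d hd using hrep
  have h1 : (T.filter fun c => S c = S c₀).card ≤ F.card := by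
    refine Finset.card_le_card_of_injOn
      (fun c => if h : c ∈ T ∧ S c = S c₀ then e ⟨c, h⟩ else 0) ?_ ?_
    · intro c hc
      have h2 := Finset.mem_filter.1 (Finset.mem_coe.1 hc)
      simp only [dif_pos h2]
      exact heF _
    · intro c hc c' hc' heq
      have h2 := Finset.mem_filter.1 (Finset.mem_coe.1 hc)
      have h2' := Finset.mem_filter.1 (Finset.mem_coe.1 hc')
      simp only [dif_pos h2, dif_pos h2'] at heq
      have hc00 : c₀ ≠ 0 := (hS c₀ hc₀).1
      have h3 := hd ⟨c, h2⟩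
      have h4 := hd ⟨c', h2'⟩
      rw [← heq] at h4
      have hc0' : c' ≠ 0 := (hS c' h2'.1).1
      have hd0 : d ⟨c', h2'⟩ ≠ 0 := by
        intro h5
        rw [h5, zero_pow hn0.ne', mul_zero] at h4
        exact div_ne_zero hc0' hc00 h4
      refine hT c h2.1 c' h2'.1 ⟨d ⟨c, h2⟩ / d ⟨c', h2'⟩, ?_⟩
      have h5 : c = c₀ * (e ⟨c, h2⟩ * d ⟨c, h2⟩ ^ n) := by
        rw [← h3]
        change c = c₀ * (c / c₀)
        field_simp
      have h6 : c' = c₀ * (e ⟨c, h2⟩ * d ⟨c', h2'⟩ ^ n) := by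
        rw [← h4]
        change c' = c₀ * (c' / c₀)
        field_simp
      calc c = c₀ * (e ⟨c, h2⟩ * d ⟨c, h2⟩ ^ n) := h5
        _ = c₀ * (e ⟨c, h2⟩ * d ⟨c', h2'⟩ ^ n) * (d ⟨c, h2⟩ / d ⟨c', h2'⟩) ^ n := by
          rw [div_pow]
          field_simp
        _ = c' * (d ⟨c, h2⟩ / d ⟨c', h2'⟩) ^ n := by rw [← h6]
  exact h1

end Pool.Agent.ML
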